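import Pool.Agent.Y858.BU.Stm

/-!
# Extension of an inverse branch of a polynomial along all free rays (`S_hub`)
-/

set_option autoImplicit false

namespace Pool.Agent.Y149.BU

open Set Filter Topology Metric Pool.Agent.Y858.BU

/-- Uniqueness of lifts along a preconnected set of parameters. -/
lemma plu (p : Polynomial ℂ) (S : Set ℝ) (γ γ' : ℝ → ℂ) (hS : IsPreconnected S)
    (hγ : ContinuousOn γ S) (hγ' : ContinuousOn γ' S)
    (heq : ∀ r ∈ S, p.eval (γ r) = p.eval (γ' r))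
    (hd : ∀ r ∈ S, p.derivative.eval (γ r) ≠ 0) (t₀ : ℝ) (ht₀ : t₀ ∈ S) (h0 : γ t₀ = γ' t₀)
    (t : ℝ) (ht : t ∈ S) : γ t = γ' t := by
  have key : ∀ s ∈ S, γ s = γ' s → ∀ᶠ r in 𝓝[S] s, γ r = γ' r := by
    intro s hs h
    have hst := p.hasStrictDerivAt (γ s)
    have hl := hst.eventually_left_inverse (hd s hs)
    have h1 := (hγ s hs).eventually hl
    have h2 := (hγ' s hs).eventually (by rw [← h]; exact hl)
    filter_upwards [h1, h2, self_mem_nhdsWithin] with r hr hr' hrS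
    rw [← hr, ← hr']
    exact congrArg _ (heq r hrS)
  by_contra hne
  let A : Set ℝ := {r ∈ S | γ r = γ' r}
  have hsub : S ⊆ A := by
    have : PreconnectedSpace S := isPreconnected_iff_preconnectedSpace.1 hS
    have hcl : IsClosed {r : S | γ r = γ' r} :=
      isClosed_eq (continuousOn_iff_continuous_domRestrict.1 hγ)
        (continuousOn_iff_continuous_domRestrict.1 hγ')
    have hop : IsOpen {r : S | γ r = γ' r} := by
      rw [isOpen_iff_eventually]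
      intro s hs
      have h1 := key s.1 s.2 hs
      rw [nhdsWithin_eq_map_subtype_coe s.2, Filter.eventually_map] at h1
      exact h1
    have hu := IsClopen.eq_univ ⟨hcl, hop⟩ ⟨⟨t₀, ht₀⟩, h0⟩
    intro r hr
    have : (⟨r, hr⟩ : S) ∈ {r : S | γ r = γ' r} := by rw [hu]; trivial
    exact ⟨hr, this⟩
  exact hne (hsub ht).2

/-- The angles near `ψ` are not in `Θ`. -/
def Free (Θ : Finset ℝ) (ψ δ : ℝ) : Prop :=
  ∀ t : ℝ, |t - ψ| < δ → ∀ θ ∈ Θ, Complex.exp (t * Complex.I) ≠ Complex.exp (θ * Complex.I)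

/-- A sector in the logarithmic coordinate. -/
def Sec (ρ ψ δ : ℝ) : Set ℂ := {ξ : ℂ | Real.log ρ < ξ.re ∧ |ξ.im - ψ| < δ}

lemma isOpen_sec (ρ ψ δ : ℝ) : IsOpen (Sec ρ ψ δ) := by
  apply IsOpen.inter
  · exact isOpen_lt continuous_const Complex.continuous_re
  · exact isOpen_lt ((Complex.continuous_im.sub continuous_const).abs) continuous_const

lemma convex_sec (ρ ψ δ : ℝ) : Convex ℝ (Sec ρ ψ δ) := by
  have h : Sec ρ ψ δ = Complex.re ⁻¹' Ioi (Real.log ρ) ∩ Complex.im ⁻¹' Ioo (ψ - δ) (ψ + δ) := by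
    ext ξ
    simp only [Sec, mem_setOf_eq, mem_inter_iff, mem_preimage, mem_Ioi, mem_Ioo, abs_lt]
    constructor
    · rintro ⟨h1, h2, h3⟩; exact ⟨h1, by linarith, by linarith⟩
    · rintro ⟨h1, h2, h3⟩; exact ⟨h1, by linarith, by linarith⟩
  rw [h]
  exact ((convex_Ioi _).linear_preimage Complex.reLm).inter
    ((convex_Ioo _ _).linear_preimage Complex.imLm)

lemma exp_ofReal_mul_I_ne {t θ r : ℝ} {ξ : ℂ} (hr : 0 < r) (ht : t = ξ.im)
    (h : Complex.exp ξ = pol r θ) : Complex.exp (t * Complex.I) = Complex.exp (θ * Complex.I) := by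
  have h1 : Complex.exp ξ = (Real.exp ξ.re : ℂ) * Complex.exp (ξ.im * Complex.I) := by
    rw [Complex.ofReal_exp, ← Complex.exp_add, Complex.re_add_im]
  have h2 : Real.exp ξ.re = r := by
    have := congrArg norm h
    rw [Complex.norm_exp, pol, norm_mul, Complex.norm_exp_ofReal_mul_I, mul_one,
      Complex.norm_real, Real.norm_eq_abs, abs_of_pos hr] at this
    exact this
  rw [h1, h2, pol] at h
  rw [ht]
  exact mul_left_cancel₀ (by exact_mod_cast hr.ne') h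

section

variable {P : Polynomial ℂ} {g : ℂ → ℂ} {Θ : Finset ℝ} {ρ : ℝ}

/-- The hypotheses. -/
structure Hyp (P : Polynomial ℂ) (g : ℂ → ℂ) (Θ : Finset ℝ) (ρ : ℝ) : Prop where
  dg : DifferentiableOn ℂ g (ball 0 1)
  hg : ∀ w ∈ ball (0 : ℂ) 1, P.eval (g w) = w
  crit : ∀ z : ℂ, P.derivative.eval z = 0 → 1 ≤ ‖P.eval z‖ → ∃ θ ∈ Θ, ∃ r : ℝ, 1 ≤ r ∧
    P.eval z = pol r θ
  pos : 0 < ρ
  lt : ρ < 1
  hρ : ∀ z : ℂ, P.derivative.eval z = 0 → ‖P.eval z‖ < 1 → ‖P.eval z‖ ≤ ρ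

lemma noncrit (H : Hyp P g Θ ρ) {ψ δ : ℝ} (hf : Free Θ ψ δ) {ξ : ℂ} (hξ : ξ ∈ Sec ρ ψ δ) {z : ℂ}
    (hz : P.eval z = Complex.exp ξ) : P.derivative.eval z ≠ 0 := by
  intro h0
  have hn : ρ < ‖P.eval z‖ := by
    rw [hz, Complex.norm_exp, ← Real.log_lt_iff_lt_exp H.pos]
    exact hξ.1
  by_cases h1 : ‖P.eval z‖ < 1
  · exact absurd (H.hρ z h0 h1) (not_le.2 hn)
  · obtain ⟨θ, hθ, r, hr, h2⟩ := H.crit z h0 (not_lt.1 h1)
    exact hf ξ.im hξ.2 θ hθ (exp_ofReal_mul_I_ne (by linarith) rfl (hz ▸ h2))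

/-- A lift over a sector which extends `g`. -/
structure Lift (P : Polynomial ℂ) (g : ℂ → ℂ) (ρ ψ δ : ℝ) (F : ℂ → ℂ) : Prop where
  cont : ContinuousOn F (Sec ρ ψ δ)
  eval : ∀ ξ ∈ Sec ρ ψ δ, P.eval (F ξ) = Complex.exp ξ
  ext : ∀ ξ ∈ Sec ρ ψ δ, ξ.re < 0 → F ξ = g (Complex.exp ξ)

lemma exists_lift (H : Hyp P g Θ ρ) {ψ δ : ℝ} (hδ : 0 < δ) (hf : Free Θ ψ δ) :
    ∃ F : ℂ → ℂ, Lift P g ρ ψ δ F := by
  have cov := P.isCoveringMapOn_eval
  have : LocallyPathConnectedSpace (Sec ρ ψ δ) := (isOpen_sec ρ ψ δ).locallyPathConnectedSpace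
  have hlog : Real.log ρ < 0 := Real.log_neg H.pos H.lt
  let ξ₀ : ℂ := ⟨Real.log ρ / 2, ψ⟩
  have hξ₀ : ξ₀ ∈ Sec ρ ψ δ := by
    refine ⟨?_, ?_⟩
    · change Real.log ρ < Real.log ρ / 2
      linarith
    · change |ψ - ψ| < δ
      rw [sub_self, abs_zero]; exact hδ
  have hball : ∀ ξ : ℂ, ξ.re < 0 → Complex.exp ξ ∈ ball (0 : ℂ) 1 := by
    intro ξ hξ
    rw [mem_ball_zero_iff, Complex.norm_exp]
    exact Real.exp_lt_one_iff.2 hξ
  have hξ₀' : ξ₀.re < 0 := by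
    change Real.log ρ / 2 < 0
    linarith
  have : ContractibleSpace (Sec ρ ψ δ) := (convex_sec ρ ψ δ).contractibleSpace ⟨ξ₀, hξ₀⟩
  let f : C(Sec ρ ψ δ, ℂ) := ⟨(Sec ρ ψ δ).domRestrict Complex.exp,
    continuousOn_iff_continuous_domRestrict.1 Complex.continuous_exp.continuousOn⟩
  obtain ⟨F, ⟨hF0, hF⟩, -⟩ := cov.existsUnique_continuousMap_lifts f (a₀ := ⟨ξ₀, hξ₀⟩)
    (e₀ := g (Complex.exp ξ₀)) (H.hg _ (hball _ hξ₀')) (fun t => by
      rintro ⟨z, hz, h⟩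
      exact noncrit H hf t.2 h hz)
  classical
  let G : ℂ → ℂ := fun u => if h : u ∈ Sec ρ ψ δ then F ⟨u, h⟩ else 0
  have hG : ∀ u (h : u ∈ Sec ρ ψ δ), G u = F ⟨u, h⟩ := fun u h => dif_pos h
  have hGe : ∀ u ∈ Sec ρ ψ δ, P.eval (G u) = Complex.exp u := by
    intro u hu
    rw [hG u hu]
    exact congrFun hF ⟨u, hu⟩
  have hGc : ContinuousOn G (Sec ρ ψ δ) := by
    rw [continuousOn_iff_continuous_domRestrict]
    convert F.continuous using 1
    ext1 u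
    exact hG u.1 u.2
  refine ⟨G, hGc, hGe, fun ξ hξ hξr => ?_⟩
  -- the segment from `ξ₀` to `ξ`
  let c : ℝ → ℂ := fun t => AffineMap.lineMap ξ₀ ξ t
  have hcc : Continuous c := AffineMap.lineMap_continuous
  have hcS : ∀ t ∈ Icc (0 : ℝ) 1, c t ∈ Sec ρ ψ δ := fun t ht =>
    (convex_sec ρ ψ δ).lineMap_mem hξ₀ hξ ht
  have hcr : ∀ t ∈ Icc (0 : ℝ) 1, (c t).re < 0 := fun t ht =>
    ((convex_Iio (0 : ℝ)).linear_preimage Complex.reLm).lineMap_mem (s := Complex.reLm ⁻¹' Iio 0)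
      hξ₀' hξr ht
  have key := plu P (Icc 0 1) (fun t => G (c t)) (fun t => g (Complex.exp (c t)))
    isPreconnected_Icc (hGc.comp hcc.continuousOn hcS)
    (H.dg.continuousOn.comp (Complex.continuous_exp.comp hcc).continuousOn
      (fun t ht => hball _ (hcr t ht)))
    (fun t ht => by rw [hGe _ (hcS t ht), H.hg _ (hball _ (hcr t ht))])
    (fun t ht => noncrit H hf (hcS t ht) (hGe _ (hcS t ht))) 0 ⟨le_rfl, zero_le_one⟩ (by
      simp only [c, AffineMap.lineMap_apply_zero]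
      rw [hG ξ₀ hξ₀]
      exact hF0) 1 ⟨zero_le_one, le_rfl⟩
  simpa only [c, AffineMap.lineMap_apply_one] using key

/-- Two lifts agree. -/
lemma lift_eq (H : Hyp P g Θ ρ) {ψ δ ψ' δ' : ℝ} (hf : Free Θ ψ δ) {F F' : ℂ → ℂ}
    (hF : Lift P g ρ ψ δ F) (hF' : Lift P g ρ ψ' δ' F') {ξ ξ' : ℂ} (hξ : ξ ∈ Sec ρ ψ δ)
    (hξ' : ξ' ∈ Sec ρ ψ' δ') (h : Complex.exp ξ = Complex.exp ξ') : F ξ = F' ξ' := by
  obtain ⟨n, hn⟩ := Complex.exp_eq_exp_iff_exists_int.1 h
  have hre : ξ.re = ξ'.re := by rw [hn]; simp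
  let c : ℝ → ℂ := fun t => ⟨t, ξ.im⟩
  let c' : ℝ → ℂ := fun t => ⟨t, ξ'.im⟩
  have hcc : Continuous c := by
    have : c = fun t : ℝ => (t : ℂ) + ξ.im * Complex.I := by
      ext t
      apply Complex.ext <;> simp [c]
    rw [this]; fun_prop
  have hcc' : Continuous c' := by
    have : c' = fun t : ℝ => (t : ℂ) + ξ'.im * Complex.I := by
      ext t
      apply Complex.ext <;> simp [c']
    rw [this]; fun_prop
  have hlog : Real.log ρ < 0 := Real.log_neg H.pos H.lt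
  have hcS : ∀ t ∈ Ioi (Real.log ρ), c t ∈ Sec ρ ψ δ := fun t ht => ⟨ht, hξ.2⟩
  have hcS' : ∀ t ∈ Ioi (Real.log ρ), c' t ∈ Sec ρ ψ' δ' := fun t ht => ⟨ht, hξ'.2⟩
  have hexp : ∀ t, Complex.exp (c t) = Complex.exp (c' t) := by
    intro t
    rw [Complex.exp_eq_exp_iff_exists_int]
    refine ⟨n, ?_⟩
    have h1 := congrArg Complex.im hn
    apply Complex.ext
    · simp [c, c']
    · simpa [c, c'] using h1
  have key := plu P (Ioi (Real.log ρ)) (fun t => F (c t)) (fun t => F' (c' t)) isPreconnected_Ioi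
    (hF.cont.comp hcc.continuousOn hcS) (hF'.cont.comp hcc'.continuousOn hcS')
    (fun t ht => by rw [hF.eval _ (hcS t ht), hF'.eval _ (hcS' t ht), hexp])
    (fun t ht => noncrit H hf (hcS t ht) (hF.eval _ (hcS t ht))) (Real.log ρ / 2)
    (by change Real.log ρ < Real.log ρ / 2; linarith) (by
      have h1 : Real.log ρ < Real.log ρ / 2 := by linarith
      have h2 : Real.log ρ / 2 < 0 := by linarith
      change F (c _) = F' (c' _)
      rw [hF.ext _ (hcS _ h1) h2, hF'.ext _ (hcS' _ h1) h2, hexp]) ξ.re hξ.1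
  have e1 : c ξ.re = ξ := rfl
  have e2 : c' ξ.re = ξ' := by rw [hre]
  simpa only [e1, e2] using key

lemma exists_free {w : ℂ} (hw : w ∈ slitted Θ) (h1 : 1 ≤ ‖w‖) :
    ∃ δ : ℝ, 0 < δ ∧ Free Θ (Complex.log w).im δ := by
  have hw0 : w ≠ 0 := by rintro rfl; simp at h1; linarith
  have h2 : ∀ θ ∈ Θ, ∀ᶠ t : ℝ in 𝓝 (Complex.log w).im,
      Complex.exp (t * Complex.I) ≠ Complex.exp (θ * Complex.I) := by
    intro θ hθ
    have hc : ContinuousAt (fun t : ℝ => Complex.exp (t * Complex.I)) (Complex.log w).im := by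
      fun_prop
    refine hc.eventually_ne fun h => ?_
    apply hw θ hθ ‖w‖ h1
    rw [pol, ← h, Complex.log_im]
    exact (Complex.norm_mul_exp_arg_mul_I w).symm
  have h3 := (Filter.eventually_all_finset Θ).2 h2
  rw [Metric.eventually_nhds_iff] at h3
  obtain ⟨δ, hδ, h⟩ := h3
  exact ⟨δ, hδ, fun t ht => h (by rwa [Real.dist_eq])⟩

lemma mem_sec_log (H : Hyp P g Θ ρ) {w : ℂ} (h1 : 1 ≤ ‖w‖) {δ : ℝ} (hδ : 0 < δ) :
    Complex.log w ∈ Sec ρ (Complex.log w).im δ := by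
  refine ⟨?_, ?_⟩
  · rw [Complex.log_re]
    exact lt_of_lt_of_le (Real.log_neg H.pos H.lt) (Real.log_nonneg h1)
  · rw [sub_self, abs_zero]; exact hδ

theorem hub_aux (H : Hyp P g Θ ρ) :
    ∃ G : ℂ → ℂ, DifferentiableOn ℂ G (slitted Θ) ∧ (∀ w ∈ slitted Θ, P.eval (G w) = w) ∧
      ∀ w ∈ ball (0 : ℂ) 1, G w = g w := by
  classical
  have h0 : ∀ w : ℂ, ∃ δ : ℝ, ∃ F : ℂ → ℂ, w ∈ slitted Θ → 1 ≤ ‖w‖ →
      0 < δ ∧ Free Θ (Complex.log w).im δ ∧ Lift P g ρ (Complex.log w).im δ F := by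
    intro w
    by_cases hw : w ∈ slitted Θ ∧ 1 ≤ ‖w‖
    · obtain ⟨δ, hδ, hf⟩ := exists_free hw.1 hw.2
      obtain ⟨F, hF⟩ := exists_lift H hδ hf
      exact ⟨δ, F, fun _ _ => ⟨hδ, hf, hF⟩⟩
    · exact ⟨0, 0, fun h h' => absurd ⟨h, h'⟩ hw⟩
  choose δ F hδF using h0
  let G : ℂ → ℂ := fun w => if ‖w‖ < 1 then g w else F w (Complex.log w)
  have hG1 : ∀ w, ‖w‖ < 1 → G w = g w := fun w hw => if_pos hw
  have hG2 : ∀ w, 1 ≤ ‖w‖ → G w = F w (Complex.log w) := fun w hw => if_neg (not_lt.2 hw)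
  -- `G` in terms of any lift
  have hG : ∀ {ψ η : ℝ} {F' : ℂ → ℂ}, Free Θ ψ η → Lift P g ρ ψ η F' → ∀ ξ ∈ Sec ρ ψ η,
      G (Complex.exp ξ) = F' ξ := by
    intro ψ η F' hf hF' ξ hξ
    by_cases h1 : ‖Complex.exp ξ‖ < 1
    · rw [hG1 _ h1, hF'.ext ξ hξ]
      rwa [Complex.norm_exp, Real.exp_lt_one_iff] at h1
    · have h2 : 1 ≤ ‖Complex.exp ξ‖ := not_lt.1 h1
      have h3 : Complex.exp ξ ∈ slitted Θ := by
        intro θ hθ r hr h
        exact hf ξ.im hξ.2 θ hθ (exp_ofReal_mul_I_ne (by linarith) rfl h)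
      obtain ⟨hδ, hfr, hL⟩ := hδF _ h3 h2
      rw [hG2 _ h2]
      exact lift_eq H hfr hL hF' (mem_sec_log H h2 hδ) hξ
        (by rw [Complex.exp_log (Complex.exp_ne_zero _)])
  refine ⟨G, ?_, ?_, fun w hw => hG1 w (by simpa using hw)⟩
  · intro w hw
    apply DifferentiableAt.differentiableWithinAt
    by_cases h1 : ‖w‖ < 1
    · have h2 : ball (0 : ℂ) 1 ∈ 𝓝 w := isOpen_ball.mem_nhds (by simpa using h1)
      refine (H.dg.differentiableAt h2).congr_of_eventuallyEq ?_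
      filter_upwards [h2] with z hz
      exact hG1 z (by simpa using hz)
    · have h2 : 1 ≤ ‖w‖ := not_lt.1 h1
      have hw0 : w ≠ 0 := by rintro rfl; simp at h2; linarith
      obtain ⟨hδ, hfr, hL⟩ := hδF _ hw h2
      -- the local logarithm
      let ℓ : ℂ → ℂ := fun z => Complex.log w + Complex.log (z / w)
      have hℓw : ℓ w = Complex.log w := by simp [ℓ, hw0]
      have hℓc : ContinuousAt ℓ w := by
        refine continuousAt_const.add ?_
        refine ContinuousAt.comp (f := fun z => z / w) (g := Complex.log) ?_ ?_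
        · rw [div_self hw0]
          exact continuousAt_clog Complex.one_mem_slitPlane
        · exact continuousAt_id.div_const w
      have hmem : ∀ᶠ z in 𝓝 w, ℓ z ∈ Sec ρ (Complex.log w).im (δ w) := by
        apply hℓc
        rw [hℓw]
        exact (isOpen_sec _ _ _).mem_nhds (mem_sec_log H h2 hδ)
      have hexp : ∀ᶠ z in 𝓝 w, Complex.exp (ℓ z) = z := by
        filter_upwards [isOpen_ne.mem_nhds hw0] with z hz
        change Complex.exp (Complex.log w + Complex.log (z / w)) = z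
        rw [Complex.exp_add, Complex.exp_log hw0, Complex.exp_log (div_ne_zero hz hw0)]
        field_simp
      have hGl : ∀ᶠ z in 𝓝 w, G z = F w (ℓ z) := by
        filter_upwards [hmem, hexp] with z hz hz'
        rw [← hG hfr hL _ hz, hz']
      have hmw : ℓ w ∈ Sec ρ (Complex.log w).im (δ w) := hmem.self_of_nhds
      have hGc : ContinuousAt G w := by
        refine ContinuousAt.congr ?_ (hGl.mono fun z hz => hz.symm)
        refine ContinuousAt.comp (f := ℓ) (g := F w) ?_ hℓc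
        exact hL.cont.continuousAt ((isOpen_sec _ _ _).mem_nhds hmw)
      have hGe : ∀ᶠ z in 𝓝 w, P.eval (G z) = z := by
        filter_upwards [hGl, hmem, hexp] with z hz hz' hz''
        rw [hz, hL.eval _ hz', hz'']
      have hd : P.derivative.eval (G w) ≠ 0 := by
        refine noncrit H hfr hmw ?_
        rw [hGe.self_of_nhds, hexp.self_of_nhds]
      exact (HasDerivAt.of_local_left_inverse hGc (P.hasDerivAt (G w)) hd hGe).differentiableAt
  · intro w hw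
    by_cases h1 : ‖w‖ < 1
    · rw [hG1 w h1, H.hg w (by simpa using h1)]
    · have h2 : 1 ≤ ‖w‖ := not_lt.1 h1
      have hw0 : w ≠ 0 := by rintro rfl; simp at h2; linarith
      obtain ⟨hδ, hfr, hL⟩ := hδF _ hw h2
      rw [hG2 w h2, hL.eval _ (mem_sec_log H h2 hδ), Complex.exp_log hw0]

end

theorem hub : S_hub := by
  intro P g Θ hP dg hg hcrit
  have hd : P.derivative ≠ 0 := by
    intro h
    have := Polynomial.natDegree_eq_zero_of_derivative_eq_zero h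
    omega
  have hfin : ({z : ℂ | P.derivative.eval z = 0}).Finite := by
    refine (P.derivative.roots.toFinset.finite_toSet).subset fun z hz => ?_
    simp only [Finset.mem_coe, Multiset.mem_toFinset]
    exact (Polynomial.mem_roots hd).2 hz
  have hfin2 : ((fun z => ‖P.eval z‖) '' {z : ℂ | P.derivative.eval z = 0} ∩ Iio 1).Finite :=
    (hfin.image _).inter_of_left _
  obtain ⟨ρ, h1, h2⟩ : ∃ ρ : ℝ, (0 < ρ ∧ ρ < 1) ∧
      ∀ x ∈ ((fun z => ‖P.eval z‖) '' {z : ℂ | P.derivative.eval z = 0} ∩ Iio 1), x ≤ ρ := by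
    obtain ⟨ρ, hρ, hmax⟩ := Set.exists_max_image
      (insert (1/2 : ℝ) ((fun z => ‖P.eval z‖) '' {z : ℂ | P.derivative.eval z = 0} ∩ Iio 1)) id
      (hfin2.insert _) ⟨1/2, mem_insert _ _⟩
    have hhalf : (1/2 : ℝ) ≤ ρ := hmax _ (mem_insert _ _)
    refine ⟨ρ, ⟨by linarith, ?_⟩, fun x hx => hmax x (mem_insert_of_mem _ hx)⟩
    rcases hρ with rfl | hρ
    · norm_num
    · exact hρ.2
  exact hub_aux (ρ := ρ) ⟨dg, hg, hcrit, h1.1, h1.2, fun z hz hz' => h2 _ ⟨⟨z, hz, rfl⟩, hz'⟩⟩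

end Pool.Agent.Y149.BU
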